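import Pool.Agent.Fcc.Main

set_option autoImplicit false

namespace Pool.Agent.Results.MP_54818a_co.FaithfulCuts

open Finset Fcc

/-- Let `G` be a finite graph without loops, parallel edges allowed, and let `w` be an eulerian
weight on its edges; `v e = 2 * (w e / 2)` is the largest even number `≤ w e` (so `v = w` if `w` is
even). Let `H ≥ 2` and let `L` be even with `v e ≤ H * L` for all `e`. If for every edge cut
(`δ(X)`, `X` a nonempty proper set of vertices) the sum of `min (v e, L, H * L - v e)` over its
edges is at least `2 * H * L`, then `G` has a faithful circuit cover of `w`. -/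
theorem result {V E : Type} [DecidableEq V] [Fintype V] [DecidableEq E] [Fintype E]
    (ends : E → Sym2 V) (hl : ∀ e, ¬ (ends e).IsDiag) (w : E → ℕ)
    (heul : ∀ x, Even (∑ e ∈ univ.filter (fun e => x ∈ ends e), w e))
    (H L : ℕ) (hH : 2 ≤ H) (hL : Even L) (hwL : ∀ e, 2 * (w e / 2) ≤ H * L)
    (hcut : ∀ X : Finset V, X.Nonempty → X ≠ univ →
      2 * H * L ≤ ∑ e ∈ cut ends X, min (min (2 * (w e / 2)) L) (H * L - 2 * (w e / 2))) :
    HasCover ends w :=
  cover_general ends hl w heul H L hH hL hwL hcut

end Pool.Agent.Results.MP_54818a_co.FaithfulCuts
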